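import Pool.Agent.Work.MP_8f87b2_sk.K12T

/-! `O_12`: kernel run, part 2 of 12 (independent parts). -/

set_option maxRecDepth 100000

namespace Pool.Agent.Work.MP_8f87b2_skp

open Pool.Agent.Work.MP_8f87b2_sk Pool.Agent.Work.MP_8f87b2_sk.K12

theorem b_c0 : run 33554431 25 24 4095 lk 1509847 183790 1000 5302727 173982 = true := by decide +kernel
theorem b_c1 : run 33554431 25 24 4095 lk 1861839 193586 1000 1509847 183790 = true := by decide +kernel
theorem b_c2 : run 33554431 25 24 4095 lk 1859823 204599 1000 1861839 193586 = true := by decide +kernel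
theorem b_c3 : run 33554431 25 24 4095 lk 2961773 215085 1000 1859823 204599 = true := by decide +kernel
theorem b_c4 : run 33554431 25 24 4095 lk 1676909 224425 1000 2961773 215085 = true := by decide +kernel
theorem b_c5 : run 33554431 25 24 4095 lk 5411069 234839 1000 1676909 224425 = true := by decide +kernel
theorem b_c6 : run 33554431 25 24 4095 lk 1219407 246031 1000 5411069 234839 = true := by decide +kernel
theorem b_c7 : run 33554431 25 24 4095 lk 350069 256809 1000 1219407 246031 = true := by decide +kernel
theorem b_c8 : run 33554431 25 24 4095 lk 5283431 267235 1000 350069 256809 = true := by decide +kernel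
theorem b_c9 : run 33554431 25 24 4095 lk 3181935 277772 1000 5283431 267235 = true := by decide +kernel
theorem b_c10 : run 33554431 25 24 4095 lk 2798183 288486 1000 3181935 277772 = true := by decide +kernel
theorem b_c11 : run 33554431 25 24 4095 lk 3224525 299292 1000 2798183 288486 = true := by decide +kernel
theorem b_c12 : run 33554431 25 24 4095 lk 875731 308697 1000 3224525 299292 = true := by decide +kernel
theorem b_c13 : run 33554431 25 24 4095 lk 3195711 320133 1000 875731 308697 = true := by decide +kernel
theorem b_c14 : run 33554431 25 24 4095 lk 5457323 331147 1000 3195711 320133 = true := by decide +kernel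
theorem b_c15 : run 33554431 25 24 4095 lk 649899 341355 1000 5457323 331147 = true := by decide +kernel
theorem b_c16 : run 33554431 25 24 4095 lk 4534703 350974 1000 649899 341355 = true := by decide +kernel
theorem b_c17 : run 33554431 25 24 4095 lk 2732239 361813 1000 4534703 350974 = true := by decide +kernel

theorem b_seg : Seg 12 4095 lk 5302727 173982 18000 2732239 361813 := by
  have s0 := seg_of_run (k := 12) (by norm_num) rfl rfl b_c0
  have s1 := s0.trans (seg_of_run (k := 12) (by norm_num) rfl rfl b_c1)
  have s2 := s1.trans (seg_of_run (k := 12) (by norm_num) rfl rfl b_c2)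
  have s3 := s2.trans (seg_of_run (k := 12) (by norm_num) rfl rfl b_c3)
  have s4 := s3.trans (seg_of_run (k := 12) (by norm_num) rfl rfl b_c4)
  have s5 := s4.trans (seg_of_run (k := 12) (by norm_num) rfl rfl b_c5)
  have s6 := s5.trans (seg_of_run (k := 12) (by norm_num) rfl rfl b_c6)
  have s7 := s6.trans (seg_of_run (k := 12) (by norm_num) rfl rfl b_c7)
  have s8 := s7.trans (seg_of_run (k := 12) (by norm_num) rfl rfl b_c8)
  have s9 := s8.trans (seg_of_run (k := 12) (by norm_num) rfl rfl b_c9)
  have s10 := s9.trans (seg_of_run (k := 12) (by norm_num) rfl rfl b_c10)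
  have s11 := s10.trans (seg_of_run (k := 12) (by norm_num) rfl rfl b_c11)
  have s12 := s11.trans (seg_of_run (k := 12) (by norm_num) rfl rfl b_c12)
  have s13 := s12.trans (seg_of_run (k := 12) (by norm_num) rfl rfl b_c13)
  have s14 := s13.trans (seg_of_run (k := 12) (by norm_num) rfl rfl b_c14)
  have s15 := s14.trans (seg_of_run (k := 12) (by norm_num) rfl rfl b_c15)
  have s16 := s15.trans (seg_of_run (k := 12) (by norm_num) rfl rfl b_c16)
  have s17 := s16.trans (seg_of_run (k := 12) (by norm_num) rfl rfl b_c17)
  exact s17

end Pool.Agent.Work.MP_8f87b2_skp
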