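import Pool.Agent.Work.MP_8f87b2_sk.K12T

/-! `O_12`: kernel run, part 3 of 12 (independent parts). -/

set_option maxRecDepth 100000

namespace Pool.Agent.Work.MP_8f87b2_skp

open Pool.Agent.Work.MP_8f87b2_sk Pool.Agent.Work.MP_8f87b2_sk.K12

theorem c_c0 : run 33554431 25 24 4095 lk 4537391 372365 1000 2732239 361813 = true := by decide +kernel
theorem c_c1 : run 33554431 25 24 4095 lk 4575687 381928 1000 4537391 372365 = true := by decide +kernel
theorem c_c2 : run 33554431 25 24 4095 lk 1682123 391904 1000 4575687 381928 = true := by decide +kernel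
theorem c_c3 : run 33554431 25 24 4095 lk 125675 402948 1000 1682123 391904 = true := by decide +kernel
theorem c_c4 : run 33554431 25 24 4095 lk 3245295 414412 1000 125675 402948 = true := by decide +kernel
theorem c_c5 : run 33554431 25 24 4095 lk 2494111 425991 1000 3245295 414412 = true := by decide +kernel
theorem c_c6 : run 33554431 25 24 4095 lk 3445707 435765 1000 2494111 425991 = true := by decide +kernel
theorem c_c7 : run 33554431 25 24 4095 lk 1295579 446060 1000 3445707 435765 = true := by decide +kernel
theorem c_c8 : run 33554431 25 24 4095 lk 452043 456863 1000 1295579 446060 = true := by decide +kernel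
theorem c_c9 : run 33554431 25 24 4095 lk 1103167 467764 1000 452043 456863 = true := by decide +kernel
theorem c_c10 : run 33554431 25 24 4095 lk 256693 478859 1000 1103167 467764 = true := by decide +kernel
theorem c_c11 : run 33554431 25 24 4095 lk 805599 489791 1000 256693 478859 = true := by decide +kernel
theorem c_c12 : run 33554431 25 24 4095 lk 1724115 500259 1000 805599 489791 = true := by decide +kernel
theorem c_c13 : run 33554431 25 24 4095 lk 3236191 511194 1000 1724115 500259 = true := by decide +kernel
theorem c_c14 : run 33554431 25 24 4095 lk 5528693 521244 1000 3236191 511194 = true := by decide +kernel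
theorem c_c15 : run 33554431 25 24 4095 lk 2706355 531622 1000 5528693 521244 = true := by decide +kernel
theorem c_c16 : run 33554431 25 24 4095 lk 5423549 541899 1000 2706355 531622 = true := by decide +kernel
theorem c_c17 : run 33554431 25 24 4095 lk 1225853 541930 3 5423549 541899 = true := by decide +kernel

theorem c_seg : Seg 12 4095 lk 2732239 361813 17003 1225853 541930 := by
  have s0 := seg_of_run (k := 12) (by norm_num) rfl rfl c_c0
  have s1 := s0.trans (seg_of_run (k := 12) (by norm_num) rfl rfl c_c1)
  have s2 := s1.trans (seg_of_run (k := 12) (by norm_num) rfl rfl c_c2)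
  have s3 := s2.trans (seg_of_run (k := 12) (by norm_num) rfl rfl c_c3)
  have s4 := s3.trans (seg_of_run (k := 12) (by norm_num) rfl rfl c_c4)
  have s5 := s4.trans (seg_of_run (k := 12) (by norm_num) rfl rfl c_c5)
  have s6 := s5.trans (seg_of_run (k := 12) (by norm_num) rfl rfl c_c6)
  have s7 := s6.trans (seg_of_run (k := 12) (by norm_num) rfl rfl c_c7)
  have s8 := s7.trans (seg_of_run (k := 12) (by norm_num) rfl rfl c_c8)
  have s9 := s8.trans (seg_of_run (k := 12) (by norm_num) rfl rfl c_c9)
  have s10 := s9.trans (seg_of_run (k := 12) (by norm_num) rfl rfl c_c10)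
  have s11 := s10.trans (seg_of_run (k := 12) (by norm_num) rfl rfl c_c11)
  have s12 := s11.trans (seg_of_run (k := 12) (by norm_num) rfl rfl c_c12)
  have s13 := s12.trans (seg_of_run (k := 12) (by norm_num) rfl rfl c_c13)
  have s14 := s13.trans (seg_of_run (k := 12) (by norm_num) rfl rfl c_c14)
  have s15 := s14.trans (seg_of_run (k := 12) (by norm_num) rfl rfl c_c15)
  have s16 := s15.trans (seg_of_run (k := 12) (by norm_num) rfl rfl c_c16)
  have s17 := s16.trans (seg_of_run (k := 12) (by norm_num) rfl rfl c_c17)
  exact s17

end Pool.Agent.Work.MP_8f87b2_skp
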