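import Pool.Agent.Work.MP_8f87b2_sk.K12T

/-! `O_12`: kernel run, part 4 of 12 (independent parts). -/

set_option maxRecDepth 100000

namespace Pool.Agent.Work.MP_8f87b2_skp

open Pool.Agent.Work.MP_8f87b2_sk Pool.Agent.Work.MP_8f87b2_sk.K12

theorem d_c0 : run 33554431 25 24 4095 lk 986931 552750 1000 1225853 541930 = true := by decide +kernel
theorem d_c1 : run 33554431 25 24 4095 lk 924959 562602 1000 986931 552750 = true := by decide +kernel
theorem d_c2 : run 33554431 25 24 4095 lk 4310765 571931 1000 924959 562602 = true := by decide +kernel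
theorem d_c3 : run 33554431 25 24 4095 lk 2438811 583331 1000 4310765 571931 = true := by decide +kernel
theorem d_c4 : run 33554431 25 24 4095 lk 4516551 593392 1000 2438811 583331 = true := by decide +kernel
theorem d_c5 : run 33554431 25 24 4095 lk 5358951 602940 1000 4516551 593392 = true := by decide +kernel
theorem d_c6 : run 33554431 25 24 4095 lk 629885 613274 1000 5358951 602940 = true := by decide +kernel
theorem d_c7 : run 33554431 25 24 4095 lk 4811947 623495 1000 629885 613274 = true := by decide +kernel
theorem d_c8 : run 33554431 25 24 4095 lk 1260851 633522 1000 4811947 623495 = true := by decide +kernel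
theorem d_c9 : run 33554431 25 24 4095 lk 511067 643113 1000 1260851 633522 = true := by decide +kernel
theorem d_c10 : run 33554431 25 24 4095 lk 802247 654250 1000 511067 643113 = true := by decide +kernel
theorem d_c11 : run 33554431 25 24 4095 lk 1595251 665014 1000 802247 654250 = true := by decide +kernel
theorem d_c12 : run 33554431 25 24 4095 lk 2305845 675712 1000 1595251 665014 = true := by decide +kernel
theorem d_c13 : run 33554431 25 24 4095 lk 351693 684756 1000 2305845 675712 = true := by decide +kernel
theorem d_c14 : run 33554431 25 24 4095 lk 4594365 694580 1000 351693 684756 = true := by decide +kernel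
theorem d_c15 : run 33554431 25 24 4095 lk 1129071 705252 1000 4594365 694580 = true := by decide +kernel
theorem d_c16 : run 33554431 25 24 4095 lk 368071 715779 1000 1129071 705252 = true := by decide +kernel

theorem d_seg : Seg 12 4095 lk 1225853 541930 17000 368071 715779 := by
  have s0 := seg_of_run (k := 12) (by norm_num) rfl rfl d_c0
  have s1 := s0.trans (seg_of_run (k := 12) (by norm_num) rfl rfl d_c1)
  have s2 := s1.trans (seg_of_run (k := 12) (by norm_num) rfl rfl d_c2)
  have s3 := s2.trans (seg_of_run (k := 12) (by norm_num) rfl rfl d_c3)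
  have s4 := s3.trans (seg_of_run (k := 12) (by norm_num) rfl rfl d_c4)
  have s5 := s4.trans (seg_of_run (k := 12) (by norm_num) rfl rfl d_c5)
  have s6 := s5.trans (seg_of_run (k := 12) (by norm_num) rfl rfl d_c6)
  have s7 := s6.trans (seg_of_run (k := 12) (by norm_num) rfl rfl d_c7)
  have s8 := s7.trans (seg_of_run (k := 12) (by norm_num) rfl rfl d_c8)
  have s9 := s8.trans (seg_of_run (k := 12) (by norm_num) rfl rfl d_c9)
  have s10 := s9.trans (seg_of_run (k := 12) (by norm_num) rfl rfl d_c10)
  have s11 := s10.trans (seg_of_run (k := 12) (by norm_num) rfl rfl d_c11)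
  have s12 := s11.trans (seg_of_run (k := 12) (by norm_num) rfl rfl d_c12)
  have s13 := s12.trans (seg_of_run (k := 12) (by norm_num) rfl rfl d_c13)
  have s14 := s13.trans (seg_of_run (k := 12) (by norm_num) rfl rfl d_c14)
  have s15 := s14.trans (seg_of_run (k := 12) (by norm_num) rfl rfl d_c15)
  have s16 := s15.trans (seg_of_run (k := 12) (by norm_num) rfl rfl d_c16)
  exact s16

end Pool.Agent.Work.MP_8f87b2_skp
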