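import Pool.Agent.Work.MP_8f87b2_sk.K12T

/-! `O_12`: kernel run, part 5 of 12 (independent parts). -/

set_option maxRecDepth 100000

namespace Pool.Agent.Work.MP_8f87b2_skp

open Pool.Agent.Work.MP_8f87b2_sk Pool.Agent.Work.MP_8f87b2_sk.K12

theorem e_c0 : run 33554431 25 24 4095 lk 4348659 727183 1000 368071 715779 = true := by decide +kernel
theorem e_c1 : run 33554431 25 24 4095 lk 5351837 737288 1000 4348659 727183 = true := by decide +kernel
theorem e_c2 : run 33554431 25 24 4095 lk 874813 747989 1000 5351837 737288 = true := by decide +kernel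
theorem e_c3 : run 33554431 25 24 4095 lk 4625139 757287 1000 874813 747989 = true := by decide +kernel
theorem e_c4 : run 33554431 25 24 4095 lk 2128687 767981 1000 4625139 757287 = true := by decide +kernel
theorem e_c5 : run 33554431 25 24 4095 lk 1476831 779420 1000 2128687 767981 = true := by decide +kernel
theorem e_c6 : run 33554431 25 24 4095 lk 2649811 790570 1000 1476831 779420 = true := by decide +kernel
theorem e_c7 : run 33554431 25 24 4095 lk 5444845 800506 1000 2649811 790570 = true := by decide +kernel
theorem e_c8 : run 33554431 25 24 4095 lk 2450999 810733 1000 5444845 800506 = true := by decide +kernel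
theorem e_c9 : run 33554431 25 24 4095 lk 2651919 820501 1000 2450999 810733 = true := by decide +kernel
theorem e_c10 : run 33554431 25 24 4095 lk 5030387 829367 1000 2651919 820501 = true := by decide +kernel
theorem e_c11 : run 33554431 25 24 4095 lk 2301301 838645 1000 5030387 829367 = true := by decide +kernel
theorem e_c12 : run 33554431 25 24 4095 lk 5331727 848798 1000 2301301 838645 = true := by decide +kernel
theorem e_c13 : run 33554431 25 24 4095 lk 1225453 859449 1000 5331727 848798 = true := by decide +kernel
theorem e_c14 : run 33554431 25 24 4095 lk 1452951 869514 1000 1225453 859449 = true := by decide +kernel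
theorem e_c15 : run 33554431 25 24 4095 lk 1878685 879993 1000 1452951 869514 = true := by decide +kernel
theorem e_c16 : run 33554431 25 24 4095 lk 2519351 889871 1000 1878685 879993 = true := by decide +kernel
theorem e_c17 : run 33554431 25 24 4095 lk 1444797 899976 1000 2519351 889871 = true := by decide +kernel

theorem e_seg : Seg 12 4095 lk 368071 715779 18000 1444797 899976 := by
  have s0 := seg_of_run (k := 12) (by norm_num) rfl rfl e_c0
  have s1 := s0.trans (seg_of_run (k := 12) (by norm_num) rfl rfl e_c1)
  have s2 := s1.trans (seg_of_run (k := 12) (by norm_num) rfl rfl e_c2)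
  have s3 := s2.trans (seg_of_run (k := 12) (by norm_num) rfl rfl e_c3)
  have s4 := s3.trans (seg_of_run (k := 12) (by norm_num) rfl rfl e_c4)
  have s5 := s4.trans (seg_of_run (k := 12) (by norm_num) rfl rfl e_c5)
  have s6 := s5.trans (seg_of_run (k := 12) (by norm_num) rfl rfl e_c6)
  have s7 := s6.trans (seg_of_run (k := 12) (by norm_num) rfl rfl e_c7)
  have s8 := s7.trans (seg_of_run (k := 12) (by norm_num) rfl rfl e_c8)
  have s9 := s8.trans (seg_of_run (k := 12) (by norm_num) rfl rfl e_c9)
  have s10 := s9.trans (seg_of_run (k := 12) (by norm_num) rfl rfl e_c10)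
  have s11 := s10.trans (seg_of_run (k := 12) (by norm_num) rfl rfl e_c11)
  have s12 := s11.trans (seg_of_run (k := 12) (by norm_num) rfl rfl e_c12)
  have s13 := s12.trans (seg_of_run (k := 12) (by norm_num) rfl rfl e_c13)
  have s14 := s13.trans (seg_of_run (k := 12) (by norm_num) rfl rfl e_c14)
  have s15 := s14.trans (seg_of_run (k := 12) (by norm_num) rfl rfl e_c15)
  have s16 := s15.trans (seg_of_run (k := 12) (by norm_num) rfl rfl e_c16)
  have s17 := s16.trans (seg_of_run (k := 12) (by norm_num) rfl rfl e_c17)
  exact s17

end Pool.Agent.Work.MP_8f87b2_skp
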