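import Pool.Agent.Work.MP_8f87b2_sk.K12T

/-! `O_12`: kernel run, part 6 of 12 (independent parts). -/

set_option maxRecDepth 100000

namespace Pool.Agent.Work.MP_8f87b2_skp

open Pool.Agent.Work.MP_8f87b2_sk Pool.Agent.Work.MP_8f87b2_sk.K12

theorem f_c0 : run 33554431 25 24 4095 lk 1481015 910932 1000 1444797 899976 = true := by decide +kernel
theorem f_c1 : run 33554431 25 24 4095 lk 1745711 921477 1000 1481015 910932 = true := by decide +kernel
theorem f_c2 : run 33554431 25 24 4095 lk 871767 932203 1000 1745711 921477 = true := by decide +kernel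
theorem f_c3 : run 33554431 25 24 4095 lk 3330893 942104 1000 871767 932203 = true := by decide +kernel
theorem f_c4 : run 33554431 25 24 4095 lk 436475 952185 1000 3330893 942104 = true := by decide +kernel
theorem f_c5 : run 33554431 25 24 4095 lk 1754355 962287 1000 436475 952185 = true := by decide +kernel
theorem f_c6 : run 33554431 25 24 4095 lk 4221687 973425 1000 1754355 962287 = true := by decide +kernel
theorem f_c7 : run 33554431 25 24 4095 lk 2770615 983927 1000 4221687 973425 = true := by decide +kernel
theorem f_c8 : run 33554431 25 24 4095 lk 1229805 994902 1000 2770615 983927 = true := by decide +kernel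
theorem f_c9 : run 33554431 25 24 4095 lk 358859 1005003 1000 1229805 994902 = true := by decide +kernel
theorem f_c10 : run 33554431 25 24 4095 lk 2188895 1016302 1000 358859 1005003 = true := by decide +kernel
theorem f_c11 : run 33554431 25 24 4095 lk 1166399 1026591 1000 2188895 1016302 = true := by decide +kernel
theorem f_c12 : run 33554431 25 24 4095 lk 642515 1037997 1000 1166399 1026591 = true := by decide +kernel
theorem f_c13 : run 33554431 25 24 4095 lk 1152375 1049036 1000 642515 1037997 = true := by decide +kernel
theorem f_c14 : run 33554431 25 24 4095 lk 1355355 1059499 1000 1152375 1049036 = true := by decide +kernel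
theorem f_c15 : run 33554431 25 24 4095 lk 1141981 1068998 1000 1355355 1059499 = true := by decide +kernel
theorem f_c16 : run 33554431 25 24 4095 lk 760491 1079014 1000 1141981 1068998 = true := by decide +kernel
theorem f_c17 : run 33554431 25 24 4095 lk 5587891 1079052 3 760491 1079014 = true := by decide +kernel

theorem f_seg : Seg 12 4095 lk 1444797 899976 17003 5587891 1079052 := by
  have s0 := seg_of_run (k := 12) (by norm_num) rfl rfl f_c0
  have s1 := s0.trans (seg_of_run (k := 12) (by norm_num) rfl rfl f_c1)
  have s2 := s1.trans (seg_of_run (k := 12) (by norm_num) rfl rfl f_c2)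
  have s3 := s2.trans (seg_of_run (k := 12) (by norm_num) rfl rfl f_c3)
  have s4 := s3.trans (seg_of_run (k := 12) (by norm_num) rfl rfl f_c4)
  have s5 := s4.trans (seg_of_run (k := 12) (by norm_num) rfl rfl f_c5)
  have s6 := s5.trans (seg_of_run (k := 12) (by norm_num) rfl rfl f_c6)
  have s7 := s6.trans (seg_of_run (k := 12) (by norm_num) rfl rfl f_c7)
  have s8 := s7.trans (seg_of_run (k := 12) (by norm_num) rfl rfl f_c8)
  have s9 := s8.trans (seg_of_run (k := 12) (by norm_num) rfl rfl f_c9)
  have s10 := s9.trans (seg_of_run (k := 12) (by norm_num) rfl rfl f_c10)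
  have s11 := s10.trans (seg_of_run (k := 12) (by norm_num) rfl rfl f_c11)
  have s12 := s11.trans (seg_of_run (k := 12) (by norm_num) rfl rfl f_c12)
  have s13 := s12.trans (seg_of_run (k := 12) (by norm_num) rfl rfl f_c13)
  have s14 := s13.trans (seg_of_run (k := 12) (by norm_num) rfl rfl f_c14)
  have s15 := s14.trans (seg_of_run (k := 12) (by norm_num) rfl rfl f_c15)
  have s16 := s15.trans (seg_of_run (k := 12) (by norm_num) rfl rfl f_c16)
  have s17 := s16.trans (seg_of_run (k := 12) (by norm_num) rfl rfl f_c17)
  exact s17

end Pool.Agent.Work.MP_8f87b2_skp
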