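import Pool.Agent.Work.MP_8f87b2_sk.K12T

/-! `O_12`: kernel run, part 7 of 12 (independent parts). -/

set_option maxRecDepth 100000

namespace Pool.Agent.Work.MP_8f87b2_skp

open Pool.Agent.Work.MP_8f87b2_sk Pool.Agent.Work.MP_8f87b2_sk.K12

theorem g_c0 : run 33554431 25 24 4095 lk 1209771 1088981 1000 5587891 1079052 = true := by decide +kernel
theorem g_c1 : run 33554431 25 24 4095 lk 4768495 1099184 1000 1209771 1088981 = true := by decide +kernel
theorem g_c2 : run 33554431 25 24 4095 lk 2628343 1109437 1000 4768495 1099184 = true := by decide +kernel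
theorem g_c3 : run 33554431 25 24 4095 lk 2345419 1119929 1000 2628343 1109437 = true := by decide +kernel
theorem g_c4 : run 33554431 25 24 4095 lk 2319797 1130274 1000 2345419 1119929 = true := by decide +kernel
theorem g_c5 : run 33554431 25 24 4095 lk 1001069 1140439 1000 2319797 1130274 = true := by decide +kernel
theorem g_c6 : run 33554431 25 24 4095 lk 1229775 1150033 1000 1001069 1140439 = true := by decide +kernel
theorem g_c7 : run 33554431 25 24 4095 lk 3174839 1161097 1000 1229775 1150033 = true := by decide +kernel
theorem g_c8 : run 33554431 25 24 4095 lk 4875831 1171610 1000 3174839 1161097 = true := by decide +kernel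
theorem g_c9 : run 33554431 25 24 4095 lk 1158715 1181719 1000 4875831 1171610 = true := by decide +kernel
theorem g_c10 : run 33554431 25 24 4095 lk 1322931 1192479 1000 1158715 1181719 = true := by decide +kernel
theorem g_c11 : run 33554431 25 24 4095 lk 2395515 1202920 1000 1322931 1192479 = true := by decide +kernel
theorem g_c12 : run 33554431 25 24 4095 lk 554839 1214025 1000 2395515 1202920 = true := by decide +kernel
theorem g_c13 : run 33554431 25 24 4095 lk 4529613 1224922 1000 554839 1214025 = true := by decide +kernel
theorem g_c14 : run 33554431 25 24 4095 lk 703659 1235460 1000 4529613 1224922 = true := by decide +kernel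
theorem g_c15 : run 33554431 25 24 4095 lk 3343215 1245779 1000 703659 1235460 = true := by decide +kernel
theorem g_c16 : run 33554431 25 24 4095 lk 200685 1257422 1000 3343215 1245779 = true := by decide +kernel

theorem g_seg : Seg 12 4095 lk 5587891 1079052 17000 200685 1257422 := by
  have s0 := seg_of_run (k := 12) (by norm_num) rfl rfl g_c0
  have s1 := s0.trans (seg_of_run (k := 12) (by norm_num) rfl rfl g_c1)
  have s2 := s1.trans (seg_of_run (k := 12) (by norm_num) rfl rfl g_c2)
  have s3 := s2.trans (seg_of_run (k := 12) (by norm_num) rfl rfl g_c3)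
  have s4 := s3.trans (seg_of_run (k := 12) (by norm_num) rfl rfl g_c4)
  have s5 := s4.trans (seg_of_run (k := 12) (by norm_num) rfl rfl g_c5)
  have s6 := s5.trans (seg_of_run (k := 12) (by norm_num) rfl rfl g_c6)
  have s7 := s6.trans (seg_of_run (k := 12) (by norm_num) rfl rfl g_c7)
  have s8 := s7.trans (seg_of_run (k := 12) (by norm_num) rfl rfl g_c8)
  have s9 := s8.trans (seg_of_run (k := 12) (by norm_num) rfl rfl g_c9)
  have s10 := s9.trans (seg_of_run (k := 12) (by norm_num) rfl rfl g_c10)
  have s11 := s10.trans (seg_of_run (k := 12) (by norm_num) rfl rfl g_c11)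
  have s12 := s11.trans (seg_of_run (k := 12) (by norm_num) rfl rfl g_c12)
  have s13 := s12.trans (seg_of_run (k := 12) (by norm_num) rfl rfl g_c13)
  have s14 := s13.trans (seg_of_run (k := 12) (by norm_num) rfl rfl g_c14)
  have s15 := s14.trans (seg_of_run (k := 12) (by norm_num) rfl rfl g_c15)
  have s16 := s15.trans (seg_of_run (k := 12) (by norm_num) rfl rfl g_c16)
  exact s16

end Pool.Agent.Work.MP_8f87b2_skp
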