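import Pool.Agent.Work.MP_8f87b2_sk.K12T

/-! `O_12`: kernel run, part 8 of 12 (independent parts). -/

set_option maxRecDepth 100000

namespace Pool.Agent.Work.MP_8f87b2_skp

open Pool.Agent.Work.MP_8f87b2_sk Pool.Agent.Work.MP_8f87b2_sk.K12

theorem h_c0 : run 33554431 25 24 4095 lk 4361971 1268949 1000 200685 1257422 = true := by decide +kernel
theorem h_c1 : run 33554431 25 24 4095 lk 4507573 1280322 1000 4361971 1268949 = true := by decide +kernel
theorem h_c2 : run 33554431 25 24 4095 lk 1587035 1291696 1000 4507573 1280322 = true := by decide +kernel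
theorem h_c3 : run 33554431 25 24 4095 lk 1714093 1302870 1000 1587035 1291696 = true := by decide +kernel
theorem h_c4 : run 33554431 25 24 4095 lk 2252243 1313710 1000 1714093 1302870 = true := by decide +kernel
theorem h_c5 : run 33554431 25 24 4095 lk 4559319 1324241 1000 2252243 1313710 = true := by decide +kernel
theorem h_c6 : run 33554431 25 24 4095 lk 4777677 1334890 1000 4559319 1324241 = true := by decide +kernel
theorem h_c7 : run 33554431 25 24 4095 lk 4933695 1345022 1000 4777677 1334890 = true := by decide +kernel
theorem h_c8 : run 33554431 25 24 4095 lk 1723279 1355962 1000 4933695 1345022 = true := by decide +kernel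
theorem h_c9 : run 33554431 25 24 4095 lk 1778631 1366262 1000 1723279 1355962 = true := by decide +kernel
theorem h_c10 : run 33554431 25 24 4095 lk 2333019 1377219 1000 1778631 1366262 = true := by decide +kernel
theorem h_c11 : run 33554431 25 24 4095 lk 930237 1388058 1000 2333019 1377219 = true := by decide +kernel
theorem h_c12 : run 33554431 25 24 4095 lk 4401999 1398663 1000 930237 1388058 = true := by decide +kernel
theorem h_c13 : run 33554431 25 24 4095 lk 4222395 1408921 1000 4401999 1398663 = true := by decide +kernel
theorem h_c14 : run 33554431 25 24 4095 lk 4499413 1419122 1000 4222395 1408921 = true := by decide +kernel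
theorem h_c15 : run 33554431 25 24 4095 lk 4380047 1429678 1000 4499413 1419122 = true := by decide +kernel
theorem h_c16 : run 33554431 25 24 4095 lk 3253863 1440304 1000 4380047 1429678 = true := by decide +kernel
theorem h_c17 : run 33554431 25 24 4095 lk 4304463 1450867 1000 3253863 1440304 = true := by decide +kernel

theorem h_seg : Seg 12 4095 lk 200685 1257422 18000 4304463 1450867 := by
  have s0 := seg_of_run (k := 12) (by norm_num) rfl rfl h_c0
  have s1 := s0.trans (seg_of_run (k := 12) (by norm_num) rfl rfl h_c1)
  have s2 := s1.trans (seg_of_run (k := 12) (by norm_num) rfl rfl h_c2)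
  have s3 := s2.trans (seg_of_run (k := 12) (by norm_num) rfl rfl h_c3)
  have s4 := s3.trans (seg_of_run (k := 12) (by norm_num) rfl rfl h_c4)
  have s5 := s4.trans (seg_of_run (k := 12) (by norm_num) rfl rfl h_c5)
  have s6 := s5.trans (seg_of_run (k := 12) (by norm_num) rfl rfl h_c6)
  have s7 := s6.trans (seg_of_run (k := 12) (by norm_num) rfl rfl h_c7)
  have s8 := s7.trans (seg_of_run (k := 12) (by norm_num) rfl rfl h_c8)
  have s9 := s8.trans (seg_of_run (k := 12) (by norm_num) rfl rfl h_c9)
  have s10 := s9.trans (seg_of_run (k := 12) (by norm_num) rfl rfl h_c10)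
  have s11 := s10.trans (seg_of_run (k := 12) (by norm_num) rfl rfl h_c11)
  have s12 := s11.trans (seg_of_run (k := 12) (by norm_num) rfl rfl h_c12)
  have s13 := s12.trans (seg_of_run (k := 12) (by norm_num) rfl rfl h_c13)
  have s14 := s13.trans (seg_of_run (k := 12) (by norm_num) rfl rfl h_c14)
  have s15 := s14.trans (seg_of_run (k := 12) (by norm_num) rfl rfl h_c15)
  have s16 := s15.trans (seg_of_run (k := 12) (by norm_num) rfl rfl h_c16)
  have s17 := s16.trans (seg_of_run (k := 12) (by norm_num) rfl rfl h_c17)
  exact s17

end Pool.Agent.Work.MP_8f87b2_skp
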