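import Pool.Agent.Work.MP_8f87b2_sk.K12T

/-! `O_12`: kernel run, part 9 of 12 (independent parts). -/

set_option maxRecDepth 100000

namespace Pool.Agent.Work.MP_8f87b2_skp

open Pool.Agent.Work.MP_8f87b2_sk Pool.Agent.Work.MP_8f87b2_sk.K12

theorem i_c0 : run 33554431 25 24 4095 lk 2386805 1461248 1000 4304463 1450867 = true := by decide +kernel
theorem i_c1 : run 33554431 25 24 4095 lk 1325927 1471948 1000 2386805 1461248 = true := by decide +kernel
theorem i_c2 : run 33554431 25 24 4095 lk 4217837 1482389 1000 1325927 1471948 = true := by decide +kernel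
theorem i_c3 : run 33554431 25 24 4095 lk 5273917 1492764 1000 4217837 1482389 = true := by decide +kernel
theorem i_c4 : run 33554431 25 24 4095 lk 4413813 1503375 1000 5273917 1492764 = true := by decide +kernel
theorem i_c5 : run 33554431 25 24 4095 lk 16125 1514877 1000 4413813 1503375 = true := by decide +kernel
theorem i_c6 : run 33554431 25 24 4095 lk 4328191 1526543 1000 16125 1514877 = true := by decide +kernel
theorem i_c7 : run 33554431 25 24 4095 lk 893503 1537390 1000 4328191 1526543 = true := by decide +kernel
theorem i_c8 : run 33554431 25 24 4095 lk 4895949 1547923 1000 893503 1537390 = true := by decide +kernel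
theorem i_c9 : run 33554431 25 24 4095 lk 5583919 1559034 1000 4895949 1547923 = true := by decide +kernel
theorem i_c10 : run 33554431 25 24 4095 lk 146395 1570551 1000 5583919 1559034 = true := by decide +kernel
theorem i_c11 : run 33554431 25 24 4095 lk 1095291 1582069 1000 146395 1570551 = true := by decide +kernel
theorem i_c12 : run 33554431 25 24 4095 lk 963855 1592159 1000 1095291 1582069 = true := by decide +kernel
theorem i_c13 : run 33554431 25 24 4095 lk 3171709 1601707 1000 963855 1592159 = true := by decide +kernel
theorem i_c14 : run 33554431 25 24 4095 lk 3297743 1612021 1000 3171709 1601707 = true := by decide +kernel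
theorem i_c15 : run 33554431 25 24 4095 lk 814931 1621819 1000 3297743 1612021 = true := by decide +kernel
theorem i_c16 : run 33554431 25 24 4095 lk 3436775 1631895 1000 814931 1621819 = true := by decide +kernel
theorem i_c17 : run 33554431 25 24 4095 lk 1667315 1631923 3 3436775 1631895 = true := by decide +kernel

theorem i_seg : Seg 12 4095 lk 4304463 1450867 17003 1667315 1631923 := by
  have s0 := seg_of_run (k := 12) (by norm_num) rfl rfl i_c0
  have s1 := s0.trans (seg_of_run (k := 12) (by norm_num) rfl rfl i_c1)
  have s2 := s1.trans (seg_of_run (k := 12) (by norm_num) rfl rfl i_c2)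
  have s3 := s2.trans (seg_of_run (k := 12) (by norm_num) rfl rfl i_c3)
  have s4 := s3.trans (seg_of_run (k := 12) (by norm_num) rfl rfl i_c4)
  have s5 := s4.trans (seg_of_run (k := 12) (by norm_num) rfl rfl i_c5)
  have s6 := s5.trans (seg_of_run (k := 12) (by norm_num) rfl rfl i_c6)
  have s7 := s6.trans (seg_of_run (k := 12) (by norm_num) rfl rfl i_c7)
  have s8 := s7.trans (seg_of_run (k := 12) (by norm_num) rfl rfl i_c8)
  have s9 := s8.trans (seg_of_run (k := 12) (by norm_num) rfl rfl i_c9)
  have s10 := s9.trans (seg_of_run (k := 12) (by norm_num) rfl rfl i_c10)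
  have s11 := s10.trans (seg_of_run (k := 12) (by norm_num) rfl rfl i_c11)
  have s12 := s11.trans (seg_of_run (k := 12) (by norm_num) rfl rfl i_c12)
  have s13 := s12.trans (seg_of_run (k := 12) (by norm_num) rfl rfl i_c13)
  have s14 := s13.trans (seg_of_run (k := 12) (by norm_num) rfl rfl i_c14)
  have s15 := s14.trans (seg_of_run (k := 12) (by norm_num) rfl rfl i_c15)
  have s16 := s15.trans (seg_of_run (k := 12) (by norm_num) rfl rfl i_c16)
  have s17 := s16.trans (seg_of_run (k := 12) (by norm_num) rfl rfl i_c17)
  exact s17

end Pool.Agent.Work.MP_8f87b2_skp
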