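import Pool.Agent.Work.MP_8f87b2_sk.K12T

/-! `O_12`: kernel run, part 10 of 12 (independent parts). -/

set_option maxRecDepth 100000

namespace Pool.Agent.Work.MP_8f87b2_skp

open Pool.Agent.Work.MP_8f87b2_sk Pool.Agent.Work.MP_8f87b2_sk.K12

theorem j_c0 : run 33554431 25 24 4095 lk 1326503 1642228 1000 1667315 1631923 = true := by decide +kernel
theorem j_c1 : run 33554431 25 24 4095 lk 2313111 1651998 1000 1326503 1642228 = true := by decide +kernel
theorem j_c2 : run 33554431 25 24 4095 lk 2466423 1661920 1000 2313111 1651998 = true := by decide +kernel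
theorem j_c3 : run 33554431 25 24 4095 lk 2702535 1672485 1000 2466423 1661920 = true := by decide +kernel
theorem j_c4 : run 33554431 25 24 4095 lk 540149 1682915 1000 2702535 1672485 = true := by decide +kernel
theorem j_c5 : run 33554431 25 24 4095 lk 2513363 1693687 1000 540149 1682915 = true := by decide +kernel
theorem j_c6 : run 33554431 25 24 4095 lk 445901 1703752 1000 2513363 1693687 = true := by decide +kernel
theorem j_c7 : run 33554431 25 24 4095 lk 3320627 1714243 1000 445901 1703752 = true := by decide +kernel
theorem j_c8 : run 33554431 25 24 4095 lk 2666875 1723982 1000 3320627 1714243 = true := by decide +kernel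
theorem j_c9 : run 33554431 25 24 4095 lk 448701 1735240 1000 2666875 1723982 = true := by decide +kernel
theorem j_c10 : run 33554431 25 24 4095 lk 2395581 1745388 1000 448701 1735240 = true := by decide +kernel
theorem j_c11 : run 33554431 25 24 4095 lk 683677 1755380 1000 2395581 1745388 = true := by decide +kernel
theorem j_c12 : run 33554431 25 24 4095 lk 1266909 1765405 1000 683677 1755380 = true := by decide +kernel
theorem j_c13 : run 33554431 25 24 4095 lk 2773933 1776099 1000 1266909 1765405 = true := by decide +kernel
theorem j_c14 : run 33554431 25 24 4095 lk 4532147 1786816 1000 2773933 1776099 = true := by decide +kernel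
theorem j_c15 : run 33554431 25 24 4095 lk 5413557 1797212 1000 4532147 1786816 = true := by decide +kernel
theorem j_c16 : run 33554431 25 24 4095 lk 2329759 1807701 1000 5413557 1797212 = true := by decide +kernel

theorem j_seg : Seg 12 4095 lk 1667315 1631923 17000 2329759 1807701 := by
  have s0 := seg_of_run (k := 12) (by norm_num) rfl rfl j_c0
  have s1 := s0.trans (seg_of_run (k := 12) (by norm_num) rfl rfl j_c1)
  have s2 := s1.trans (seg_of_run (k := 12) (by norm_num) rfl rfl j_c2)
  have s3 := s2.trans (seg_of_run (k := 12) (by norm_num) rfl rfl j_c3)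
  have s4 := s3.trans (seg_of_run (k := 12) (by norm_num) rfl rfl j_c4)
  have s5 := s4.trans (seg_of_run (k := 12) (by norm_num) rfl rfl j_c5)
  have s6 := s5.trans (seg_of_run (k := 12) (by norm_num) rfl rfl j_c6)
  have s7 := s6.trans (seg_of_run (k := 12) (by norm_num) rfl rfl j_c7)
  have s8 := s7.trans (seg_of_run (k := 12) (by norm_num) rfl rfl j_c8)
  have s9 := s8.trans (seg_of_run (k := 12) (by norm_num) rfl rfl j_c9)
  have s10 := s9.trans (seg_of_run (k := 12) (by norm_num) rfl rfl j_c10)
  have s11 := s10.trans (seg_of_run (k := 12) (by norm_num) rfl rfl j_c11)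
  have s12 := s11.trans (seg_of_run (k := 12) (by norm_num) rfl rfl j_c12)
  have s13 := s12.trans (seg_of_run (k := 12) (by norm_num) rfl rfl j_c13)
  have s14 := s13.trans (seg_of_run (k := 12) (by norm_num) rfl rfl j_c14)
  have s15 := s14.trans (seg_of_run (k := 12) (by norm_num) rfl rfl j_c15)
  have s16 := s15.trans (seg_of_run (k := 12) (by norm_num) rfl rfl j_c16)
  exact s16

end Pool.Agent.Work.MP_8f87b2_skp
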