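import Pool.Agent.Work.MP_8f87b2_sk.K12T

/-! `O_12`: kernel run, part 11 of 12 (independent parts). -/

set_option maxRecDepth 100000

namespace Pool.Agent.Work.MP_8f87b2_skp

open Pool.Agent.Work.MP_8f87b2_sk Pool.Agent.Work.MP_8f87b2_sk.K12

theorem k_c0 : run 33554431 25 24 4095 lk 2105211 1817542 1000 2329759 1807701 = true := by decide +kernel
theorem k_c1 : run 33554431 25 24 4095 lk 1386287 1828496 1000 2105211 1817542 = true := by decide +kernel
theorem k_c2 : run 33554431 25 24 4095 lk 2479383 1838939 1000 1386287 1828496 = true := by decide +kernel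
theorem k_c3 : run 33554431 25 24 4095 lk 1239477 1849738 1000 2479383 1838939 = true := by decide +kernel
theorem k_c4 : run 33554431 25 24 4095 lk 696087 1860989 1000 1239477 1849738 = true := by decide +kernel
theorem k_c5 : run 33554431 25 24 4095 lk 478395 1871654 1000 696087 1860989 = true := by decide +kernel
theorem k_c6 : run 33554431 25 24 4095 lk 818237 1882139 1000 478395 1871654 = true := by decide +kernel
theorem k_c7 : run 33554431 25 24 4095 lk 433271 1891280 1000 818237 1882139 = true := by decide +kernel
theorem k_c8 : run 33554431 25 24 4095 lk 5064471 1901899 1000 433271 1891280 = true := by decide +kernel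
theorem k_c9 : run 33554431 25 24 4095 lk 1096423 1912473 1000 5064471 1901899 = true := by decide +kernel
theorem k_c10 : run 33554431 25 24 4095 lk 4928271 1923300 1000 1096423 1912473 = true := by decide +kernel
theorem k_c11 : run 33554431 25 24 4095 lk 2390621 1932762 1000 4928271 1923300 = true := by decide +kernel
theorem k_c12 : run 33554431 25 24 4095 lk 5399789 1944008 1000 2390621 1932762 = true := by decide +kernel
theorem k_c13 : run 33554431 25 24 4095 lk 4780343 1954488 1000 5399789 1944008 = true := by decide +kernel
theorem k_c14 : run 33554431 25 24 4095 lk 1063551 1965880 1000 4780343 1954488 = true := by decide +kernel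
theorem k_c15 : run 33554431 25 24 4095 lk 2137663 1977528 1000 1063551 1965880 = true := by decide +kernel
theorem k_c16 : run 33554431 25 24 4095 lk 285655 1989024 1000 2137663 1977528 = true := by decide +kernel
theorem k_c17 : run 33554431 25 24 4095 lk 4818543 1999323 1000 285655 1989024 = true := by decide +kernel

theorem k_seg : Seg 12 4095 lk 2329759 1807701 18000 4818543 1999323 := by
  have s0 := seg_of_run (k := 12) (by norm_num) rfl rfl k_c0
  have s1 := s0.trans (seg_of_run (k := 12) (by norm_num) rfl rfl k_c1)
  have s2 := s1.trans (seg_of_run (k := 12) (by norm_num) rfl rfl k_c2)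
  have s3 := s2.trans (seg_of_run (k := 12) (by norm_num) rfl rfl k_c3)
  have s4 := s3.trans (seg_of_run (k := 12) (by norm_num) rfl rfl k_c4)
  have s5 := s4.trans (seg_of_run (k := 12) (by norm_num) rfl rfl k_c5)
  have s6 := s5.trans (seg_of_run (k := 12) (by norm_num) rfl rfl k_c6)
  have s7 := s6.trans (seg_of_run (k := 12) (by norm_num) rfl rfl k_c7)
  have s8 := s7.trans (seg_of_run (k := 12) (by norm_num) rfl rfl k_c8)
  have s9 := s8.trans (seg_of_run (k := 12) (by norm_num) rfl rfl k_c9)
  have s10 := s9.trans (seg_of_run (k := 12) (by norm_num) rfl rfl k_c10)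
  have s11 := s10.trans (seg_of_run (k := 12) (by norm_num) rfl rfl k_c11)
  have s12 := s11.trans (seg_of_run (k := 12) (by norm_num) rfl rfl k_c12)
  have s13 := s12.trans (seg_of_run (k := 12) (by norm_num) rfl rfl k_c13)
  have s14 := s13.trans (seg_of_run (k := 12) (by norm_num) rfl rfl k_c14)
  have s15 := s14.trans (seg_of_run (k := 12) (by norm_num) rfl rfl k_c15)
  have s16 := s15.trans (seg_of_run (k := 12) (by norm_num) rfl rfl k_c16)
  have s17 := s16.trans (seg_of_run (k := 12) (by norm_num) rfl rfl k_c17)
  exact s17

end Pool.Agent.Work.MP_8f87b2_skp
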