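import Pool.Agent.Work.MP_8f87b2_sk.K12T

/-! `O_12`: kernel run, part 12 of 12 (independent parts). -/

set_option maxRecDepth 100000

namespace Pool.Agent.Work.MP_8f87b2_skp

open Pool.Agent.Work.MP_8f87b2_sk Pool.Agent.Work.MP_8f87b2_sk.K12

theorem l_c0 : run 33554431 25 24 4095 lk 2270831 2009914 1000 4818543 1999323 = true := by decide +kernel
theorem l_c1 : run 33554431 25 24 4095 lk 3168181 2020811 1000 2270831 2009914 = true := by decide +kernel
theorem l_c2 : run 33554431 25 24 4095 lk 3165883 2032144 1000 3168181 2020811 = true := by decide +kernel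
theorem l_c3 : run 33554431 25 24 4095 lk 677783 2043026 1000 3165883 2032144 = true := by decide +kernel
theorem l_c4 : run 33554431 25 24 4095 lk 504989 2052763 1000 677783 2043026 = true := by decide +kernel
theorem l_c5 : run 33554431 25 24 4095 lk 1283293 2063363 1000 504989 2052763 = true := by decide +kernel
theorem l_c6 : run 33554431 25 24 4095 lk 5319357 2073141 1000 1283293 2063363 = true := by decide +kernel
theorem l_c7 : run 33554431 25 24 4095 lk 381671 2084511 1000 5319357 2073141 = true := by decide +kernel
theorem l_c8 : run 33554431 25 24 4095 lk 2166647 2095629 1000 381671 2084511 = true := by decide +kernel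
theorem l_c9 : run 33554431 25 24 4095 lk 2478933 2106677 1000 2166647 2095629 = true := by decide +kernel
theorem l_c10 : run 33554431 25 24 4095 lk 1256151 2117234 1000 2478933 2106677 = true := by decide +kernel
theorem l_c11 : run 33554431 25 24 4095 lk 246653 2127315 1000 1256151 2117234 = true := by decide +kernel
theorem l_c12 : run 33554431 25 24 4095 lk 4888797 2137721 1000 246653 2127315 = true := by decide +kernel
theorem l_c13 : run 33554431 25 24 4095 lk 1588439 2148470 1000 4888797 2137721 = true := by decide +kernel
theorem l_c14 : run 33554431 25 24 4095 lk 4487411 2159705 1000 1588439 2148470 = true := by decide +kernel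
theorem l_c15 : run 33554431 25 24 4095 lk 4820315 2169178 1000 4487411 2159705 = true := by decide +kernel
theorem l_c16 : run 33554431 25 24 4095 lk 8127 2178360 1000 4820315 2169178 = true := by decide +kernel
theorem l_c17 : run 33554431 25 24 4095 lk 8063 2178384 2 8127 2178360 = true := by decide +kernel

theorem l_seg : Seg 12 4095 lk 4818543 1999323 17002 8063 2178384 := by
  have s0 := seg_of_run (k := 12) (by norm_num) rfl rfl l_c0
  have s1 := s0.trans (seg_of_run (k := 12) (by norm_num) rfl rfl l_c1)
  have s2 := s1.trans (seg_of_run (k := 12) (by norm_num) rfl rfl l_c2)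
  have s3 := s2.trans (seg_of_run (k := 12) (by norm_num) rfl rfl l_c3)
  have s4 := s3.trans (seg_of_run (k := 12) (by norm_num) rfl rfl l_c4)
  have s5 := s4.trans (seg_of_run (k := 12) (by norm_num) rfl rfl l_c5)
  have s6 := s5.trans (seg_of_run (k := 12) (by norm_num) rfl rfl l_c6)
  have s7 := s6.trans (seg_of_run (k := 12) (by norm_num) rfl rfl l_c7)
  have s8 := s7.trans (seg_of_run (k := 12) (by norm_num) rfl rfl l_c8)
  have s9 := s8.trans (seg_of_run (k := 12) (by norm_num) rfl rfl l_c9)
  have s10 := s9.trans (seg_of_run (k := 12) (by norm_num) rfl rfl l_c10)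
  have s11 := s10.trans (seg_of_run (k := 12) (by norm_num) rfl rfl l_c11)
  have s12 := s11.trans (seg_of_run (k := 12) (by norm_num) rfl rfl l_c12)
  have s13 := s12.trans (seg_of_run (k := 12) (by norm_num) rfl rfl l_c13)
  have s14 := s13.trans (seg_of_run (k := 12) (by norm_num) rfl rfl l_c14)
  have s15 := s14.trans (seg_of_run (k := 12) (by norm_num) rfl rfl l_c15)
  have s16 := s15.trans (seg_of_run (k := 12) (by norm_num) rfl rfl l_c16)
  have s17 := s16.trans (seg_of_run (k := 12) (by norm_num) rfl rfl l_c17)
  exact s17

end Pool.Agent.Work.MP_8f87b2_skp
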