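import Pool.Agent.Work.MP_8f87b2_skp.K12A
import Pool.Agent.Work.MP_8f87b2_skp.K12B
import Pool.Agent.Work.MP_8f87b2_skp.K12C
import Pool.Agent.Work.MP_8f87b2_skp.K12D
import Pool.Agent.Work.MP_8f87b2_skp.K12E
import Pool.Agent.Work.MP_8f87b2_skp.K12F
import Pool.Agent.Work.MP_8f87b2_skp.K12G
import Pool.Agent.Work.MP_8f87b2_skp.K12H
import Pool.Agent.Work.MP_8f87b2_skp.K12I
import Pool.Agent.Work.MP_8f87b2_skp.K12J
import Pool.Agent.Work.MP_8f87b2_skp.K12K
import Pool.Agent.Work.MP_8f87b2_skp.K12L

/-! `O_12`: kernel computation of a shift-invariant Hamilton cycle (parts built independently). -/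

set_option maxRecDepth 100000

namespace Pool.Agent.Work.MP_8f87b2_skp

open Pool.Agent.Work.MP_8f87b2_sk Pool.Agent.Work.MP_8f87b2_sk.K12

theorem last : run 33554431 25 24 16777216 lk 4095 2178397 1 8063 2178384 = true := by decide +kernel

theorem hamShift12 : HamShift 12 := by
  have s0 := a_seg
  have s1 := s0.trans b_seg
  have s2 := s1.trans c_seg
  have s3 := s2.trans d_seg
  have s4 := s3.trans e_seg
  have s5 := s4.trans f_seg
  have s6 := s5.trans g_seg
  have s7 := s6.trans h_seg
  have s8 := s7.trans i_seg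
  have s9 := s8.trans j_seg
  have s10 := s9.trans k_seg
  have s11 := s10.trans l_seg
  exact hamShift_of_seg (w1 := 16777216) s11 (seg_of_run (k := 12) (by norm_num) rfl rfl last) (by decide +kernel)
    (by decide +kernel) (by norm_num)

end Pool.Agent.Work.MP_8f87b2_skp
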