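import Pool.Agent.Work.MP_8f87b2_sk.K12T

/-! `O_12`: kernel run, part 1 of 12 (independent parts). -/

set_option maxRecDepth 100000

namespace Pool.Agent.Work.MP_8f87b2_skp

open Pool.Agent.Work.MP_8f87b2_sk Pool.Agent.Work.MP_8f87b2_sk.K12

theorem a_c0 : run 33554431 25 24 4095 lk 3461805 10799 1000 4095 0 = true := by decide +kernel
theorem a_c1 : run 33554431 25 24 4095 lk 3262119 20908 1000 3461805 10799 = true := by decide +kernel
theorem a_c2 : run 33554431 25 24 4095 lk 1287485 30262 1000 3262119 20908 = true := by decide +kernel
theorem a_c3 : run 33554431 25 24 4095 lk 2739279 40374 1000 1287485 30262 = true := by decide +kernel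
theorem a_c4 : run 33554431 25 24 4095 lk 1463015 50246 1000 2739279 40374 = true := by decide +kernel
theorem a_c5 : run 33554431 25 24 4095 lk 3250547 60399 1000 1463015 50246 = true := by decide +kernel
theorem a_c6 : run 33554431 25 24 4095 lk 4654963 70698 1000 3250547 60399 = true := by decide +kernel
theorem a_c7 : run 33554431 25 24 4095 lk 553853 81753 1000 4654963 70698 = true := by decide +kernel
theorem a_c8 : run 33554431 25 24 4095 lk 2112893 92989 1000 553853 81753 = true := by decide +kernel
theorem a_c9 : run 33554431 25 24 4095 lk 5347687 104092 1000 2112893 92989 = true := by decide +kernel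
theorem a_c10 : run 33554431 25 24 4095 lk 3346863 114023 1000 5347687 104092 = true := by decide +kernel
theorem a_c11 : run 33554431 25 24 4095 lk 2519879 123734 1000 3346863 114023 = true := by decide +kernel
theorem a_c12 : run 33554431 25 24 4095 lk 2417263 133403 1000 2519879 123734 = true := by decide +kernel
theorem a_c13 : run 33554431 25 24 4095 lk 2666279 142991 1000 2417263 133403 = true := by decide +kernel
theorem a_c14 : run 33554431 25 24 4095 lk 2958523 152588 1000 2666279 142991 = true := by decide +kernel
theorem a_c15 : run 33554431 25 24 4095 lk 3428053 163234 1000 2958523 152588 = true := by decide +kernel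
theorem a_c16 : run 33554431 25 24 4095 lk 5302727 173982 1000 3428053 163234 = true := by decide +kernel

theorem a_seg : Seg 12 4095 lk 4095 0 17000 5302727 173982 := by
  have s0 := seg_of_run (k := 12) (by norm_num) rfl rfl a_c0
  have s1 := s0.trans (seg_of_run (k := 12) (by norm_num) rfl rfl a_c1)
  have s2 := s1.trans (seg_of_run (k := 12) (by norm_num) rfl rfl a_c2)
  have s3 := s2.trans (seg_of_run (k := 12) (by norm_num) rfl rfl a_c3)
  have s4 := s3.trans (seg_of_run (k := 12) (by norm_num) rfl rfl a_c4)
  have s5 := s4.trans (seg_of_run (k := 12) (by norm_num) rfl rfl a_c5)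
  have s6 := s5.trans (seg_of_run (k := 12) (by norm_num) rfl rfl a_c6)
  have s7 := s6.trans (seg_of_run (k := 12) (by norm_num) rfl rfl a_c7)
  have s8 := s7.trans (seg_of_run (k := 12) (by norm_num) rfl rfl a_c8)
  have s9 := s8.trans (seg_of_run (k := 12) (by norm_num) rfl rfl a_c9)
  have s10 := s9.trans (seg_of_run (k := 12) (by norm_num) rfl rfl a_c10)
  have s11 := s10.trans (seg_of_run (k := 12) (by norm_num) rfl rfl a_c11)
  have s12 := s11.trans (seg_of_run (k := 12) (by norm_num) rfl rfl a_c12)
  have s13 := s12.trans (seg_of_run (k := 12) (by norm_num) rfl rfl a_c13)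
  have s14 := s13.trans (seg_of_run (k := 12) (by norm_num) rfl rfl a_c14)
  have s15 := s14.trans (seg_of_run (k := 12) (by norm_num) rfl rfl a_c15)
  have s16 := s15.trans (seg_of_run (k := 12) (by norm_num) rfl rfl a_c16)
  exact s16

end Pool.Agent.Work.MP_8f87b2_skp
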