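import Pool.Agent.Work.MP_8f87b2_sk.SmallAll
import Pool.Agent.Work.MP_8f87b2_skp.K12

/-! `kappa(O_k) = 2 k + 1` for `4 ≤ k ≤ 12` (kernel computation; the parts of `k = 12` are built independently). -/

namespace Pool.Agent.Work.MP_8f87b2_skp

open Pool.Agent.Work.MP_8f87b2_co Pool.Agent.Work.MP_8f87b2_sk

theorem small_mem12 {k : ℕ} (h4 : 4 ≤ k) (h12 : k ≤ 12) : 2 * k + 1 ∈ compressionSet (oddGraph k) := by
  have : k ≤ 11 ∨ k = 12 := by omega
  rcases this with h | rfl
  · exact small_mem h4 h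
  · exact mem_of_hamShift (by omega) hamShift12

theorem small_greatest12 {k : ℕ} (h4 : 4 ≤ k) (h12 : k ≤ 12) :
    IsGreatest (compressionSet (oddGraph k)) (2 * k + 1) :=
  ⟨small_mem12 h4 h12, fun _ hm => upper (by omega) hm⟩

end Pool.Agent.Work.MP_8f87b2_skp
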